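import Pool.Agent.H16.SC.Targets

/-!
Module KL1 (target T_L1) of block B1 for MP_f2954d_ag.
-/

namespace H50SC

open SCB Filter Topology

/-- limits of rescaled prime divisors outside the kernel -/
theorem kl1 (hCT : T_CT) (hPS : T_PS) (hCH : T_CH) : T_L1 := by
  intro N P ι _ _ _ _ n X A hA hn L hL D t d ht hlim hK hKd
  by_cases hcase : ∃ G : P, ∃ᶠ k in atTop, D k = G
  · obtain ⟨G, hG⟩ := hcase
    obtain ⟨φ, hφ, hφG⟩ := Filter.extraction_of_frequently_atTop hG
    have hlim' : Tendsto (fun k => t (φ k) • X.cl G) atTop (𝓝 d) := by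
      have h1 := hlim.comp hφ.tendsto_atTop
      refine h1.congr fun k => ?_
      simp [Function.comp, hφG k]
    have hKG : ¬ X.Ker L (X.cl G) := by
      have := hK (φ 0)
      rwa [hφG 0] at this
    have hG0 : X.cl G ≠ 0 := by
      intro h0
      apply hKG
      intro y
      rw [h0]
      exact X.I_zero (by simp [card_ms]; omega)
    have hnorm : Tendsto (fun k => ‖t (φ k) • X.cl G‖) atTop (𝓝 ‖d‖) := hlim'.norm
    have hGn : ‖X.cl G‖ ≠ 0 := norm_ne_zero_iff.2 hG0
    have ht' : Tendsto (fun k => t (φ k)) atTop (𝓝 (‖d‖ / ‖X.cl G‖)) := by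
      have h2 := hnorm.div_const ‖X.cl G‖
      refine h2.congr fun k => ?_
      rw [norm_smul, Real.norm_of_nonneg (ht _)]
      field_simp
    have hd : d = (‖d‖ / ‖X.cl G‖) • X.cl G :=
      tendsto_nhds_unique hlim' (ht'.smul_const _)
    by_contra hd0
    have hdn : ‖d‖ / ‖X.cl G‖ ≠ 0 := div_ne_zero (norm_ne_zero_iff.2 hd0) hGn
    apply hKG
    intro y
    have h3 := hKd y
    rw [hd, X.I_smul _ _ (by simp [card_ms]; omega)] at h3
    exact (mul_eq_zero.1 h3).resolve_left hdn
  · have hev : ∀ G : P, ∀ᶠ k in atTop, D k ≠ G := by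
      intro G
      by_contra hne
      exact hcase ⟨G, by simpa [Filter.Frequently] using hne⟩
    refine hCH N P ι n X A hA hn L hL d hKd ?_
    intro B hB hBn
    obtain ⟨-, -, hDD, -, -⟩ := hPS N P n X
    -- first pass to the limit in the second slot
    have h1 : ∀ k, 0 ≤ X.I ((t k • X.cl (D k)) ::ₘ d ::ₘ B) := by
      intro k
      have hT : Tendsto (fun l => X.I ((t k • X.cl (D k)) ::ₘ (t l • X.cl (D l)) ::ₘ B)) atTop
          (𝓝 (X.I ((t k • X.cl (D k)) ::ₘ d ::ₘ B))) := by
        refine hCT N P n X ℕ atTop _ _ ?_ (by simp; omega)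
        exact MT.cons tendsto_const_nhds (MT.cons hlim (MT.const B))
      refine ge_of_tendsto hT ?_
      filter_upwards [hev (D k)] with l hl
      rw [X.I_smul _ _ (by simp; omega), Multiset.cons_swap, X.I_smul _ _ (by simp; omega),
        Multiset.cons_swap]
      exact mul_nonneg (ht k) (mul_nonneg (ht l)
        (hDD (D k) (D l) (fun h => hl h.symm) B hB hBn))
    have hT : Tendsto (fun k => X.I ((t k • X.cl (D k)) ::ₘ d ::ₘ B)) atTop
        (𝓝 (X.I (d ::ₘ d ::ₘ B))) := by
      refine hCT N P n X ℕ atTop _ _ ?_ (by simp; omega)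
      exact MT.cons hlim (MT.const _)
    exact ge_of_tendsto' hT h1

end H50SC
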