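import Pool.Agent.H16.SC.Targets

/-!
Module KS1 (target T_S1) of block B1 for MP_f2954d_ag.
-/

namespace H50SC

open SCB Filter Topology

/-- the estimate for one component of type P, in terms of one bilinear form -/
lemma typeP_est (hLR : T_LR) {N : Type} [NormedAddCommGroup N] [NormedSpace ℝ N]
    {q : N → N → ℝ} (hq : SymBil q) (hL : Lor q) {Nf : Set N} {A g : N} {C d : ℝ}
    (hC : 0 < C) (hd : 0 < d) (hpos : ∀ x ∈ Nf, ∀ y ∈ Nf, 0 ≤ q x y)
    (hA : A ∈ Nf) (hg : g ∈ Nf) (hCA : ∀ x : N, (C * ‖x‖) • A + x ∈ Nf)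
    {C' : ℝ} (hC' : 0 < C') (hCg : ∀ x : N, (C' * ‖x‖) • g + x ∈ Nf)
    (hgA : d * q A A ≤ q g A) (η x : N) (hx : q A x = q g η) :
    q η η ≤ (2 * C ^ 2 * ‖x‖ * ‖η‖ / d) * q A A := by
  have habs : ∀ z, |q A z| ≤ C * ‖z‖ * q A A := by
    intro z
    rw [abs_le]
    constructor
    · have h1 := hpos A hA _ (hCA z)
      rw [hq.add', hq.smul'] at h1
      linarith
    · have h1 := hpos A hA _ (hCA (-z))
      rw [hq.add', hq.smul', hq.neg', norm_neg] at h1
      linarith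
  have hsq : ∀ z, q z z ≤ C ^ 2 * ‖z‖ ^ 2 * q A A := by
    intro z
    have h1 := hpos _ (hCA z) _ (hCA (-z))
    rw [norm_neg, hq.add, hq.add', hq.add', hq.smul, hq.smul', hq.smul, hq.smul', hq.neg',
      hq.neg', hq.symm z A] at h1
    nlinarith
  have hAA : 0 ≤ q A A := hpos A hA A hA
  rcases hAA.eq_or_lt with h0 | h0
  · have := hsq η
    rw [← h0] at this ⊢
    simpa using this
  · have hgA0 : 0 < q g A := lt_of_lt_of_le (mul_pos hd h0) hgA
    have hgg : 0 < q g g := by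
      have h1 := hpos g hg _ (hCg (-A))
      rw [hq.add', hq.smul', hq.neg', norm_neg] at h1
      have h2 : 0 < C' * ‖A‖ * q g g := by linarith
      have h3 : 0 ≤ C' * ‖A‖ := by positivity
      by_contra hcon
      push Not at hcon
      have : C' * ‖A‖ * q g g ≤ 0 := mul_nonpos_of_nonneg_of_nonpos h3 hcon
      linarith
    have h4 := (hLR N q hq hL).2.2 g A η hgg hgA0 hAA
    have h5 : |q g η| ≤ C * ‖x‖ * q A A := by rw [← hx]; exact habs x
    have h6 : |q A η| ≤ C * ‖η‖ * q A A := habs η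
    have h7 : 2 * (q g η / q g A) * q A η ≤ 2 * (|q g η| / q g A) * |q A η| := by
      have e1 : 2 * (q g η / q g A) * q A η = 2 * (q g η * q A η / q g A) := by ring
      have e2 : 2 * (|q g η| / q g A) * |q A η| = 2 * (|q g η| * |q A η| / q g A) := by ring
      rw [e1, e2, ← abs_mul]
      have := le_abs_self (q g η * q A η)
      gcongr
    have h8 : |q g η| / q g A ≤ C * ‖x‖ / d := by
      rw [div_le_div_iff₀ hgA0 hd]
      calc |q g η| * d ≤ (C * ‖x‖ * q A A) * d := by gcongr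
        _ = C * ‖x‖ * (d * q A A) := by ring
        _ ≤ C * ‖x‖ * q g A := by gcongr
    calc q η η ≤ 2 * (q g η / q g A) * q A η := h4
      _ ≤ 2 * (|q g η| / q g A) * |q A η| := h7
      _ ≤ 2 * (C * ‖x‖ / d) * (C * ‖η‖ * q A A) := by gcongr
      _ = (2 * C ^ 2 * ‖x‖ * ‖η‖ / d) * q A A := by ring

/-- the estimate on a threefold -/
theorem ks1 (hLR : T_LR) (hCN : T_CN) (hCT : T_CT) : T_S1 := by
  intro N P _ _ _ n X A hA C hC hCA h hh hhG g hg d hd hsiu hsiu' η x hx c hc hD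
  have hdR : (0 : ℝ) < d := by exact_mod_cast hd
  obtain ⟨-, -, hAmp, hbd, -, -⟩ := hCN N P n X
  have hNef : ∀ a ∈ X.G, a ∈ X.Nef := fun a ha => subset_closure ha
  have hbG : (d : ℝ) • A ∈ X.G := X.G_smul A hA d hd
  obtain ⟨r, cc, δ, hcc, hdec, hty⟩ := X.siu h hh hhG g hg _ hbG hsiu
  set K : ℝ := c + 2 * C ^ 2 * ‖x‖ * ‖η‖ / d with hK
  have hK0 : 0 ≤ 2 * C ^ 2 * ‖x‖ * ‖η‖ / d := by positivity
  have hmain : ∀ i, X.I (δ i ::ₘ η ::ₘ η ::ₘ h) ≤ K * X.I (δ i ::ₘ A ::ₘ A ::ₘ h) := by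
    intro i
    rcases hty i with ⟨D, hDi⟩ | hP
    · rw [hDi]
      have hpos : 0 < X.I (X.cl D ::ₘ A ::ₘ A ::ₘ h) := X.posD D _ (by simp; omega) (by
        intro a ha
        simp only [Multiset.mem_cons] at ha
        rcases ha with rfl | rfl | ha
        · exact hA
        · exact hA
        · exact hhG a ha)
      rcases hD D with h0 | h0
      · have hgg : 0 < X.I (X.cl D ::ₘ g ::ₘ g ::ₘ h) := X.posD D _ (by simp; omega) (by
          intro a ha
          simp only [Multiset.mem_cons] at ha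
          rcases ha with rfl | rfl | ha
          · exact hg
          · exact hg
          · exact hhG a ha)
        have hge : X.I (X.cl D ::ₘ g ::ₘ η ::ₘ h) = 0 := by
          have e : X.cl D ::ₘ g ::ₘ η ::ₘ h = η ::ₘ X.cl D ::ₘ g ::ₘ h := by
            rw [Multiset.cons_swap g η, Multiset.cons_swap (X.cl D) η]
          rw [e, h0]
        have h1 := (hLR N _ (X.symBil_d (X.cl D) hh) (X.lorD D h hh hhG)).1 g η hgg hge
        have h2 : 0 ≤ K * X.I (X.cl D ::ₘ A ::ₘ A ::ₘ h) := by positivity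
        exact le_trans h1 h2
      · refine h0.trans ?_
        have : c ≤ K := by rw [hK]; linarith
        gcongr
    · obtain ⟨hPG, hPL, j, h', hj, hmov⟩ := hP
      have hb := X.symBil_d (δ i) hh
      have hposN : ∀ u ∈ X.Nef, ∀ v ∈ X.Nef, 0 ≤ X.I (δ i ::ₘ u ::ₘ v ::ₘ h) := by
        intro u hu v hv
        obtain ⟨su, hsu, hlu⟩ := mem_closure_iff_seq_limit.1 hu
        obtain ⟨sv, hsv, hlv⟩ := mem_closure_iff_seq_limit.1 hv
        have hT : Tendsto (fun k => X.I (δ i ::ₘ su k ::ₘ sv k ::ₘ h)) atTop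
            (𝓝 (X.I (δ i ::ₘ u ::ₘ v ::ₘ h))) := by
          refine hCT N P n X ℕ atTop _ _ ?_ (by simp; omega)
          exact MT.cons tendsto_const_nhds (MT.cons hlu (MT.cons hlv (MT.const h)))
        exact ge_of_tendsto' hT fun k => hPG _ (hsu k) _ (hsv k)
      obtain ⟨C', hC', hCg⟩ := hbd g (hAmp g hg)
      have hgA : (d : ℝ) * X.I (δ i ::ₘ A ::ₘ A ::ₘ h) ≤ X.I (δ i ::ₘ g ::ₘ A ::ₘ h) := by
        have h1 := hmov g hg _ hbG A hA (hsiu' j h' hj)
        have h2 := hb.sub g ((d : ℝ) • A) A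
        have h3 := hb.smul (d : ℝ) A A
        rw [h2, h3] at h1
        linarith
      have hxe : X.I (δ i ::ₘ A ::ₘ x ::ₘ h) = X.I (δ i ::ₘ g ::ₘ η ::ₘ h) := by
        have e1 : δ i ::ₘ A ::ₘ x ::ₘ h = x ::ₘ δ i ::ₘ A ::ₘ h := by
          rw [Multiset.cons_swap A x, Multiset.cons_swap (δ i) x]
        have e2 : δ i ::ₘ g ::ₘ η ::ₘ h = η ::ₘ δ i ::ₘ g ::ₘ h := by
          rw [Multiset.cons_swap g η, Multiset.cons_swap (δ i) η]
        rw [e1, e2]
        exact hx (δ i)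
      have h4 := typeP_est hLR hb hPL hC hdR hposN (hNef A hA) (hNef g hg) hCA hC' hCg hgA η x hxe
      have h5 : 0 ≤ c * X.I (δ i ::ₘ A ::ₘ A ::ₘ h) :=
        mul_nonneg hc (hposN A (hNef A hA) A (hNef A hA))
      rw [hK]
      linarith
  rw [hdec, hdec, Finset.mul_sum]
  refine Finset.sum_le_sum fun i _ => ?_
  calc cc i * X.I (δ i ::ₘ η ::ₘ η ::ₘ h) ≤ cc i * (K * X.I (δ i ::ₘ A ::ₘ A ::ₘ h)) :=
        mul_le_mul_of_nonneg_left (hmain i) (hcc i)
    _ = K * (cc i * X.I (δ i ::ₘ A ::ₘ A ::ₘ h)) := by ring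

end H50SC
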